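import Pool.Agent.Helper17.Rg.Goals

/-!
# Packet RG-BRAT (MP_70814c_an): a rational number which is not an integer has bad times often
-/

set_option autoImplicit false

namespace Pool.Agent.Helper82.RG

open Pool.Agent.Helper17.Rg

theorem di_mul (m : ℕ) (z : ℝ) (h : (m : ℝ) * di z < 1 / 2) : di (m * z) = m * di z := by
  have hm : (0 : ℝ) ≤ m := Nat.cast_nonneg m
  have h1 : |(m : ℝ) * z - ((m * round z : ℤ) : ℝ)| = m * di z := by
    push_cast
    rw [← mul_sub, abs_mul, abs_of_nonneg hm, di]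
  have h2 : di (m * z) ≤ |(m : ℝ) * z - ((m * round z : ℤ) : ℝ)| := round_le _ _
  have h3 : round ((m : ℝ) * z) = m * round z := by
    have h4 : |((round ((m : ℝ) * z) - m * round z : ℤ) : ℝ)| < 1 := by
      have h5 : ((round ((m : ℝ) * z) - m * round z : ℤ) : ℝ)
          = ((m : ℝ) * z - ((m * round z : ℤ) : ℝ)) - ((m : ℝ) * z - round ((m : ℝ) * z)) := by
        push_cast; ring
      rw [h5]
      calc |((m : ℝ) * z - ((m * round z : ℤ) : ℝ)) - ((m : ℝ) * z - round ((m : ℝ) * z))|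
          ≤ |(m : ℝ) * z - ((m * round z : ℤ) : ℝ)| + |(m : ℝ) * z - round ((m : ℝ) * z)| :=
            abs_sub _ _
        _ = m * di z + di (m * z) := by rw [h1]; rfl
        _ < 1 := by rw [h1] at h2; linarith
    have h6 : |(round ((m : ℝ) * z) - m * round z : ℤ)| < 1 := by
      exact_mod_cast h4
    have h7 := Int.abs_lt_one_iff.mp h6
    omega
  rw [← h1, ← h3]
  rfl

theorem di_lb (D : ℕ) (hD : 0 < D) (p : ℤ) (h : ¬ ∃ z : ℤ, (p : ℝ) / D = z) :
    1 / (D : ℝ) ≤ di (p / D) := by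
  have hD' : (0 : ℝ) < D := by exact_mod_cast hD
  set r := round ((p : ℝ) / D) with hr
  have h1 : p - D * r ≠ 0 := by
    intro h0
    apply h
    refine ⟨r, ?_⟩
    have h2 : (p : ℝ) = D * r := by
      have : p = D * r := by omega
      exact_mod_cast this
    rw [h2]
    field_simp
  have h3 : (1 : ℝ) ≤ |((p - D * r : ℤ) : ℝ)| := by
    have : 1 ≤ |p - D * r| := Int.one_le_abs h1
    exact_mod_cast this
  have h4 : di (p / D) = |((p - D * r : ℤ) : ℝ)| / D := by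
    rw [di, ← hr]
    have h5 : (p : ℝ) / D - r = ((p - D * r : ℤ) : ℝ) / D := by
      push_cast
      field_simp
    rw [h5, abs_div, abs_of_pos hD']
  rw [h4]
  exact div_le_div_of_nonneg_right h3 hD'.le

theorem one_base (g : ℕ) (hg : 2 ≤ g) (hg3 : g ≤ 3) (D : ℕ) (hD : 0 < D) (n : ℤ)
    (h : ∀ k : ℕ, ¬ ∃ z : ℤ, (g : ℝ) ^ k * ((n : ℝ) / D) = z) (k0 : ℕ) :
    ∃ k, k0 ≤ k ∧ k < k0 + (D + 1) ∧ 1 / 6 ≤ di ((g : ℝ) ^ k * (n / D)) := by
  by_contra hcon
  push Not at hcon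
  have hD' : (0 : ℝ) < D := by exact_mod_cast hD
  have hg0 : (0 : ℝ) < g := by
    have : 0 < g := by omega
    exact_mod_cast this
  have hg3' : (g : ℝ) ≤ 3 := by exact_mod_cast hg3
  have key : ∀ j : ℕ, j ≤ D →
      di ((g : ℝ) ^ (k0 + j) * (n / D)) = (g : ℝ) ^ j * di ((g : ℝ) ^ k0 * (n / D)) := by
    intro j
    induction j with
    | zero => intro _; simp
    | succ j ih =>
      intro hj
      have h1 := ih (by omega)
      have h2 := hcon (k0 + j) (by omega) (by omega)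
      have h3 : (g : ℝ) * di ((g : ℝ) ^ (k0 + j) * (n / D)) < 1 / 2 := by
        have h0 : 0 ≤ di ((g : ℝ) ^ (k0 + j) * (n / D)) := abs_nonneg _
        nlinarith
      have h4 := di_mul g _ h3
      have h5 : (g : ℝ) ^ (k0 + (j + 1)) * ((n : ℝ) / D)
          = g * ((g : ℝ) ^ (k0 + j) * (n / D)) := by
        rw [← add_assoc, pow_succ]; ring
      rw [h5, h4, h1, pow_succ]
      ring
  have h1 := key D le_rfl
  have h2 := hcon (k0 + D) (by omega) (by omega)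
  have h3 : 1 / (D : ℝ) ≤ di ((g : ℝ) ^ k0 * (n / D)) := by
    have h4 : (g : ℝ) ^ k0 * ((n : ℝ) / D) = (((g : ℤ) ^ k0 * n : ℤ) : ℝ) / D := by
      push_cast; ring
    have h5 := h k0
    rw [h4] at h5 ⊢
    exact di_lb D hD _ h5
  have h6 : (D : ℝ) ≤ (g : ℝ) ^ D := by
    have h7 : D < g ^ D := Nat.lt_pow_self (by omega)
    exact_mod_cast h7.le
  have h8 : (1 : ℝ) ≤ (g : ℝ) ^ D * di ((g : ℝ) ^ k0 * (n / D)) := by
    calc (1 : ℝ) = D * (1 / D) := by field_simp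
      _ ≤ (g : ℝ) ^ D * di ((g : ℝ) ^ k0 * (n / D)) := by
        apply mul_le_mul h6 h3 (by positivity) (by positivity)
  rw [h1] at h2
  linarith

/-- Packet RG-BRAT. -/
theorem badRat : Pool.Agent.Helper17.Rg.BadRat := by
  intro D hD
  refine ⟨D + 1, by omega, ?_⟩
  intro n hn k0
  by_cases h2 : ∀ k : ℕ, ¬ ∃ z : ℤ, ((2 : ℕ) : ℝ) ^ k * ((n : ℝ) / D) = z
  · obtain ⟨k, a, b, c⟩ := one_base 2 (by norm_num) (by norm_num) D hD n h2 k0
    exact ⟨k, a, b, Or.inl (by simpa using c)⟩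
  by_cases h3 : ∀ k : ℕ, ¬ ∃ z : ℤ, ((3 : ℕ) : ℝ) ^ k * ((n : ℝ) / D) = z
  · obtain ⟨k, a, b, c⟩ := one_base 3 (by norm_num) (by norm_num) D hD n h3 k0
    exact ⟨k, a, b, Or.inr (by simpa using c)⟩
  exfalso
  push Not at h2 h3
  obtain ⟨k, z, hz⟩ := h2
  obtain ⟨l, w, hw⟩ := h3
  apply hn
  have hc : IsCoprime ((2 : ℤ) ^ k) ((3 : ℤ) ^ l) := by
    apply IsCoprime.pow
    refine ⟨-1, 1, by norm_num⟩
  obtain ⟨u, v, huv⟩ := hc
  refine ⟨u * z + v * w, ?_⟩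
  have h5 : (u : ℝ) * 2 ^ k + v * 3 ^ l = 1 := by exact_mod_cast huv
  push_cast at hz hw ⊢
  rw [← hz, ← hw]
  calc (n : ℝ) / D = ((u : ℝ) * 2 ^ k + v * 3 ^ l) * (n / D) := by rw [h5, one_mul]
    _ = u * (2 ^ k * (n / D)) + v * (3 ^ l * (n / D)) := by ring

end Pool.Agent.Helper82.RG
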